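import Pool.Agent.Work.MP_36fbc5_co.Lam
import Pool.Agent.Work.MP_36fbc5_co.NonClassical

/-!
# Non-classical symmetric nets with groups transitive on both kinds of point pairs

Let `s = p ^ c` be a prime power, `N = k (s - 1)`, `F = GF(p ^ N)`, `K = GF(s)` and `ω` a generator
of the multiplicative group of `K`.  There is a nonzero additive map `lam : F → K` with
`lam (z ^ p) = ω * lam z`.  The points are the pairs `(x, y) ∈ F × K`, the blocks are the sets
`y = lam (x m) + b`.  Translations, the shears `(x, y) ↦ (x, y + lam (x n))`, the scalings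
`(x, y) ↦ (a x, y)` and the map `(x, y) ↦ (x ^ p, ω y)` are automorphisms; the first three kinds
make the group transitive on ordered pairs of joined points, the last kind and the translations
make it transitive on ordered pairs of distinct non-joined points.
-/

set_option autoImplicit false

namespace Pool.Agent.Results.MP_36fbc5_co.NonclassicalFamily

open Pool.Agent.Work.MP_36fbc5_co

/-- For every prime power `s = p ^ c` that is not a prime (`c ≥ 2`) and every `k ≥ 1` there is a
non-classical symmetric `(s, μ)`-net, `μ = p ^ (k (s - 1) - c)`, with an automorphism group that is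
transitive on the ordered pairs of joined points and also transitive on the ordered pairs of
distinct non-joined points. -/
theorem result (p c k : ℕ) (hp : p.Prime) (hc : 2 ≤ c) (hk : 1 ≤ k) :
    ∃ (V : Type) (𝓑 : Set (Set V)) (G : Subgroup (Equiv.Perm V)),
      IsSymmetricNet 𝓑 (p ^ c) (p ^ (k * (p ^ c - 1) - c)) ∧
      IsAutomorphismGroup 𝓑 G ∧
      (∀ u v u' v' : V, Joined 𝓑 u v → Joined 𝓑 u' v' → ∃ g ∈ G, g u = u' ∧ g v = v') ∧
      (∀ u v u' v' : V, u ≠ v → ¬ Joined 𝓑 u v → u' ≠ v' → ¬ Joined 𝓑 u' v' →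
        ∃ g ∈ G, g u = u' ∧ g v = v') ∧
      ¬ IsClassical 𝓑 := by
  have : Fact p.Prime := ⟨hp⟩
  have harith := arith p c hp.two_le hc
  have h2 := hp.two_le
  have hc' : c ≤ c * (p - 1) := Nat.le_mul_of_pos_right c (by omega)
  have hs1 : c + 1 ≤ p ^ c - 1 := by omega
  obtain ⟨N, hN⟩ : ∃ N, N = k * (p ^ c - 1) := ⟨_, rfl⟩
  have hNc : c + 1 ≤ N := by
    rw [hN]
    exact hs1.trans (Nat.le_mul_of_pos_left _ hk)
  let F := GaloisField p N
  let K := GaloisField p c
  have hF : Nat.card F = p ^ N := GaloisField.card p N (by omega)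
  have hK : Nat.card K = p ^ c := GaloisField.card p c (by omega)
  have hFfin : Finite F := Nat.finite_of_card_ne_zero (by rw [hF]; positivity)
  have hKfin : Finite K := Nat.finite_of_card_ne_zero (by rw [hK]; positivity)
  have hFt : Fintype F := Fintype.ofFinite F
  have hKt : Fintype K := Fintype.ofFinite K
  obtain ⟨g, hg⟩ := IsCyclic.exists_generator (α := Kˣ)
  have hord : orderOf g = p ^ c - 1 := by
    rw [orderOf_eq_card_of_forall_mem_zpowers hg, Nat.card_units, hK]
  have hordω : orderOf (g : K) = p ^ c - 1 := by rw [orderOf_units, hord]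
  have hωN : (g : K) ^ N = 1 := by
    rw [hN, mul_comm, pow_mul, ← hordω, pow_orderOf_eq_one, one_pow]
  obtain ⟨lam, hlam0, hlam⟩ := exists_lam p F K N (by omega)
    (by rw [← Nat.card_eq_fintype_card, hF]) (g : K) hωN
  have hgen : ∀ y : K, y ≠ 0 → ∃ j : ℕ, (g : K) ^ j = y := by
    intro y hy
    have h1 : Units.mk0 y hy ∈ Submonoid.powers g := by
      rw [mem_powers_iff_mem_zpowers]
      exact hg _
    obtain ⟨j, hj⟩ := h1
    refine ⟨j, ?_⟩
    have := congrArg (fun u : Kˣ => (u : K)) hj
    simpa using this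
  have hiter : ∀ (j : ℕ) (z : F), lam (z ^ p ^ j) = (g : K) ^ j * lam z := by
    intro j
    induction j with
    | zero => intro z; simp
    | succ j ih =>
      intro z
      rw [pow_succ, pow_mul, hlam, ih, pow_succ']
      ring
  have hsurj : Function.Surjective lam := by
    obtain ⟨z₀, hz₀⟩ : ∃ z, lam z ≠ 0 := by
      by_contra h
      push Not at h
      exact hlam0 (AddMonoidHom.ext h)
    intro y
    by_cases hy : y = 0
    · exact ⟨0, by rw [map_zero, hy]⟩
    · obtain ⟨j, hj⟩ := hgen (y / lam z₀) (div_ne_zero hy hz₀)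
      exact ⟨z₀ ^ p ^ j, by rw [hiter, hj, div_mul_cancel₀ _ hz₀]⟩
  have hFs : Nat.card F = p ^ c * p ^ (N - c) := by
    rw [hF, ← pow_add]
    congr 1
    omega
  have hω0 : (g : K) ≠ 0 := g.ne_zero
  refine ⟨F × K, Blocks lam, autGroup (Blocks lam), ?_, autGroup_isAut _, ?_, ?_, ?_⟩
  · rw [← hN]
    refine isSymmetricNet lam (p ^ c) (p ^ (N - c)) (by omega) (Nat.one_le_pow _ _ (by omega)) ?_
      hK hFs hsurj
    rw [← pow_add]
    calc 3 ≤ p ^ c := by omega
      _ ≤ p ^ (c + (N - c)) := Nat.pow_le_pow_right (by omega) (by omega)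
  · exact trans_joined lam hsurj
  · exact trans_nonjoined lam hsurj p (g : K) hω0 hlam hgen
  · exact not_classical lam p c hc hK hsurj (g : K) hω0 hlam hordω

end Pool.Agent.Results.MP_36fbc5_co.NonclassicalFamily
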